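import Pool.Agent.Helper68.VW.Vwp

/-! The restriction to the event of all atoms. -/

set_option autoImplicit false

namespace Pool.Agent.Helper91.EXA

open Finset Filter Topology Pool.Agent.Helper69.RK Pool.Agent.Helper31.EC Pool.Agent.Helper31.EC.Sp
open Pool.Agent.Helper31.EC.QS Pool.Agent.Helper40.EL

noncomputable section

theorem res_true {Ω : Type} (μ : Ω → ℝ) : res μ (fun _ => True) = μ := by
  funext ω
  exact if_pos trivial

theorem rest_true_mu (F : FSp) : (F.rest fun _ => True).μ = F.μ := by
  have h1 : F.pb (fun _ => True) = 1 := by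
    unfold FSp.pb
    rw [res_true]
    exact F.ms
  have h2 : (F.rest fun _ => True).μ = F.restμ fun _ => True := rfl
  rw [h2, F.restμ_eq _ (by rw [h1]; exact one_ne_zero), h1, res_true]
  funext ω
  rw [inv_one, one_mul]

theorem push_idf {Ω : Type} [Fintype Ω] (μ : Ω → ℝ) : push (fun ω => ω) μ = μ := by
  classical
  funext ω
  unfold push
  rw [Finset.sum_eq_single ω]
  · exact if_pos rfl
  · intro ω' _ hne
    exact if_neg hne
  · intro h
    exact absurd (Finset.mem_univ ω) h

variable (T : Sp)

theorem pr_true : T.pr (fun _ _ => True) = fun _ => 1 := by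
  funext k
  show (T.F k).pb (fun _ => True) = 1
  unfold FSp.pb
  rw [res_true]
  exact (T.F k).ms

theorem pos_true : 0 < ul (T.pr fun _ _ => True) := by
  have h1 : ul (T.pr fun _ _ => True) = 1 := by
    apply ul_eq
    rw [pr_true]
    exact tendsto_const_nhds
  rw [h1]
  exact one_pos

/-- the restriction to all atoms is the space itself -/
def pTr : Pj (T.rest fun _ _ => True) T where
  π := fun _ ω => ω
  law := fun k => (push_idf (Ω := (T.F k).Ω) ((T.rest fun _ _ => True).F k).μ).trans (rest_true_mu (T.F k))
  hZ := fun _ _ _ _ _ => Iff.rfl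
  hn := fun _ => rfl

variable {T}

theorem qs_true (hE : 0 < ul (T.pr fun _ _ => True)) (f : QS T) : QS.rest (fun _ _ => True) hE f = (pTr T).qs f := by
  obtain ⟨f, rfl⟩ := mk_surj f
  rfl

theorem restL_true (hE : 0 < ul (T.pr fun _ _ => True)) (x : T.L) :
    restL (fun _ _ => True) hE x = (pTr T).map x := by
  induction x using cl_ind with | _ A
  rfl

end

end Pool.Agent.Helper91.EXA
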