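import Pool.Agent.Helper91.EXA.Gt
import Pool.Agent.Helper91.EXA.Tru

/-! THE FIRST CORNER, part 4: ASSEMBLY of `ST_EX` from good types of one member of a homogeneous class. -/

set_option autoImplicit false

namespace Pool.Agent.Helper91.EXA

open Finset Filter Topology Pool.Agent.Helper69.RK Pool.Agent.Helper31.EC Pool.Agent.Helper31.EC.Sp
open Pool.Agent.Helper31.EC.QS Pool.Agent.Helper40.EL Pool.Agent.Helper84.MT Pool.Agent.Helper36.AM
open Pool.Agent.Helper82.TP (Lit)
open Pool.Agent.Helper5.HB (cq)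
open Pool.Agent.Helper57.TA (rcst)
open Pool.Agent.Helper13.AM (CD cQ cT cQ_mk cQ_dg cT_dg)
open Pool.Agent.Helper10.BLD (Spl qA Rv qc IsTop R1 Vw CCo Ax0 Wd Nlw)
open Pool.Agent.Helper50.BLD
open Pool.Agent.Helper91.BOX (BD exists_boxesw dgb hom_le_last)

noncomputable section

/-! ### change of the names of the point -/

section

variable {S : Sp} {d N g : ℕ}

/-- types are data on the functions `q`, `R` -/
def ltc {q q' : Fin (d + 1) → QS S} {R R' : Fin N → QS S} (h1 : ∀ i, q' i = q i) (h2 : ∀ j, R' j = R j)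
    (T : LT S d N g q R) : LT S d N g q' R' where
  β := T.β
  V := T.V
  a := T.a
  u := T.u
  cf := T.cf
  la := T.la
  lu := T.lu
  lc := T.lc
  a0 := T.a0
  u0 := T.u0
  line := fun j => by rw [h1, h1]; exact T.line j
  curve := fun j => by rw [h2, h1]; exact T.curve j
  rv := by rw [h1]; exact T.rv

end

/-! ### the base change -/

section

variable {M d N : ℕ} {w : Fin (M + 1) → ℝ}

theorem bI_zero (P : Spl w d N) (h : w 0 = 1) : P.bI 0 = 0 := by
  rcases P.cov 0 with ⟨i, hi⟩ | ⟨j, hj⟩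
  · have h1 : P.bI 0 ≤ P.bI i := P.sb.monotone (Fin.zero_le i)
    rw [hi] at h1
    exact Fin.le_zero_iff.mp h1
  · have h1 := P.wv j
    rw [hj, h] at h1
    exact absurd h1 (lt_irrefl _)

/-- the matrix: the height is the form `θ` -/
def mA (P : Spl w d N) (θ : Fin (M + 1) → ℝ) : Matrix (Fin (d + 1)) (Fin (d + 1)) ℝ :=
  Matrix.of fun i j => if i = 0 then θ (P.bI j) else if i = j then 1 else 0

theorem mA_zero (P : Spl w d N) (θ : Fin (M + 1) → ℝ) (j : Fin (d + 1)) : mA P θ 0 j = θ (P.bI j) := by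
  show (if (0 : Fin (d + 1)) = 0 then θ (P.bI j) else if 0 = j then 1 else 0) = _
  exact if_pos rfl

theorem mA_ne (P : Spl w d N) (θ : Fin (M + 1) → ℝ) {i : Fin (d + 1)} (hi : i ≠ 0) (j : Fin (d + 1)) :
    mA P θ i j = if i = j then 1 else 0 := by
  show (if i = 0 then θ (P.bI j) else if i = j then 1 else 0) = _
  exact if_neg hi

theorem mA_det (P : Spl w d N) (θ : Fin (M + 1) → ℝ) (h : w 0 = 1) (h0 : θ 0 = 1) : (mA P θ).det = 1 := by
  have h1 : (mA P θ).BlockTriangular id := by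
    intro i j hij
    have hi : i ≠ 0 := by
      intro hc
      rw [hc] at hij
      exact absurd hij (not_lt.mpr (Fin.zero_le _))
    rw [mA_ne P θ hi, if_neg]
    intro hc
    rw [hc] at hij
    exact lt_irrefl _ hij
  rw [Matrix.det_of_isUpperTriangular h1]
  apply Finset.prod_eq_one
  intro i _
  by_cases hi : i = 0
  · rw [hi, mA_zero, bI_zero P h, h0]
  · rw [mA_ne P θ hi, if_pos rfl]

variable {S : Sp} {g r : ℕ} {s : MSys S (M + 1) (lin g) (Fin r)}

/-- the base point in the coordinates `A` is the point of the good leaves -/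
theorem qA_gt (P : Spl w d N) (h : w 0 = 1) (G : GT w s) (t : Fin G.r1) (i : Fin (d + 1)) :
    qA P (mA P G.θ) s.Q i = QS.mk (TR.cor (G.Qt t) (P.bI i)) := by
  by_cases hi : i = 0
  · subst hi
    rw [bI_zero P h, G.Qt0]
    unfold qA
    have h1 : ∑ j : Fin (M + 1), rcst S (G.θ j) * QS.mk (TR.cor s.Q j) =
        ∑ j ∈ univ.image P.bI, rcst S (G.θ j) * QS.mk (TR.cor s.Q j) := by
      symm
      apply Finset.sum_subset (Finset.subset_univ _)
      intro j _ hj
      have h2 : w j ≠ 1 := by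
        rcases P.cov j with ⟨i, hi⟩ | ⟨l, hl⟩
        · exact absurd (Finset.mem_image.mpr ⟨i, Finset.mem_univ _, hi⟩) hj
        · rw [← hl]
          exact (P.wv l).ne'
      rw [G.θw j h2, map_zero, zero_mul]
    rw [h1, Finset.sum_image fun a _ b _ hab => P.sb.injective hab]
    rfl
  · have h1 : P.bI i ≠ 0 := by
      intro hc
      have h2 : P.bI 0 < P.bI i := P.sb (Fin.pos_iff_ne_zero.mpr hi)
      rw [hc] at h2
      exact absurd h2 (Fin.not_lt_zero _)
    rw [G.Qtj t _ h1]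
    unfold qA
    rw [Finset.sum_eq_single i]
    · rw [mA_ne P G.θ hi, if_pos rfl, map_one, one_mul]
      rfl
    · intro j _ hj
      rw [mA_ne P G.θ hi, if_neg hj.symm, map_zero, zero_mul]
    · intro hn
      exact absurd (Finset.mem_univ i) hn

theorem Rv_gt (P : Spl w d N) (h : w 0 = 1) (G : GT w s) (t : Fin G.r1) (j : Fin N) :
    Rv P s.Q j = QS.mk (TR.cor (G.Qt t) (P.vI j)) := by
  have h1 : P.vI j ≠ 0 := by
    intro hc
    have h2 := P.wv j
    rw [hc, h] at h2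
    exact lt_irrefl _ h2
  rw [G.Qtj t _ h1]
  rfl

/-- the number of coordinates of weight one -/
theorem nd1_eq (P : Spl w d N) : nd1 w = d + 1 := by
  classical
  have h1 : (univ.filter fun j => w j = 1) = univ.image P.bI := by
    ext a
    rw [Finset.mem_filter, Finset.mem_image]
    constructor
    · rintro ⟨_, ha⟩
      rcases P.cov a with ⟨i, hi⟩ | ⟨l, hl⟩
      · exact ⟨i, Finset.mem_univ _, hi⟩
      · have h2 := P.wv l
        rw [hl, ha] at h2
        exact absurd h2 (lt_irrefl _)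
    · rintro ⟨i, _, rfl⟩
      exact ⟨Finset.mem_univ _, P.wb i⟩
  have h2 : nd1 w = (univ.filter fun j => w j = 1).card := by
    unfold nd1
    refine congrArg Finset.card (Finset.ext fun i => ?_)
    simp only [Finset.mem_filter]
  rw [h2, h1, Finset.card_image_of_injective _ P.sb.injective, Finset.card_univ, Fintype.card_fin]

end

/-! ### the corner -/

section

variable {S : Sp} {M d N g r : ℕ} {w : Fin (M + 1) → ℝ} {ρ : ℝ} {Cl : MCl (M + 1)}
  {TT : ∀ S : Sp, MSys S (M + 1) (lin g) (Fin r) → Prop} {s : MSys S (M + 1) (lin g) (Fin r)}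

/-- lines of the good leaves -/
abbrev lix (G : GT w s) : Type := Σ i : Fin G.r1, Fin (G.lf i).e

theorem lty_a (P : Spl w d N) (j : Fin (d + 1)) : w (P.bI j) < 2 := by
  rw [P.wb j]
  norm_num

theorem lty_b (hT : Hom M Cl g r w ρ TT) (P : Spl w d N) (j : Fin N) : w (P.vI j) < (dgb w : ℝ) + 1 := by
  have h1 := (hom_le_last hT (P.vI j)).trans (Nat.le_ceil (w (Fin.last M)))
  unfold dgb
  linarith

theorem lty_c (hT : Hom M Cl g r w ρ TT) (P : Spl w d N) (G : GT w s) (x : lix G) :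
    IsUnit (QS.mk ((G.ch x.1).co (P.bI 0) (Finsupp.single x.2 1))) := by
  rw [bI_zero P hT.one]
  exact G.unit x.1 x.2

/-- the type of a line -/
def lty (hT : Hom M Cl g r w ρ TT) (P : Spl w d N) (G : GT w s) (x : lix G) :
    LT S d N (dgb w) (qA P (mA P G.θ) s.Q) (Rv P s.Q) :=
  ltc (qA_gt P hT.one G x.1) (Rv_gt P hT.one G x.1)
    ((G.ch x.1).lt x.2 P.bI P.vI (lty_a P) (lty_b hT P) (lty_c hT P G x))

/-- the directions are functions of the top coefficients -/
theorem lty_u (hT : Hom M Cl g r w ρ TT) (P : Spl w d N) (G : GT w s) (x : lix G) (j : Fin (d + 1)) :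
    KT w s (dg ((lty hT P G x).u j) 1) := by
  have h1 : ∀ i, KT w s (dg (QS.mk ((G.ch x.1).co (P.bI i) (Finsupp.single x.2 1))) 1) := by
    intro i
    apply G.kt
    rw [Finsupp.degree_single, Nat.cast_one, P.wb i]
  have h2 : (lty hT P G x).u j = QS.mk ((G.ch x.1).co (P.bI j) (Finsupp.single x.2 1)) *
      ivh (G.ch x.1) x.2 P.bI (lty_c hT P G x) :=
    lt_u_eq (G.ch x.1) x.2 P.bI P.vI (lty_a P) (lty_b hT P) (lty_c hT P G x) j
  rw [h2]
  exact (h1 j).mul ((h1 0).inv (ivh_mul _ _ _ _))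

theorem lty_cf (hT : Hom M Cl g r w ρ TT) (P : Spl w d N) (G : GT w s) (x : lix G) (j : Fin N) (n : Fin (dgb w + 1))
    (hn : P.w j = ((n : ℕ) : ℝ)) : KT w s (dg ((lty hT P G x).cf j n) 1) := by
  have h1 : ∀ i, KT w s (dg (QS.mk ((G.ch x.1).co (P.bI i) (Finsupp.single x.2 1))) 1) := by
    intro i
    apply G.kt
    rw [Finsupp.degree_single, Nat.cast_one, P.wb i]
  have hn1 : 1 ≤ (n : ℕ) := by
    have h3 : 1 < P.w j := P.wv j
    rw [hn] at h3
    exact_mod_cast h3.le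
  have hw : w (P.vI j) = ((n : ℕ) : ℝ) := hn
  have h2 : (lty hT P G x).cf j n = QS.mk ((G.ch x.1).co (P.vI j) (Finsupp.single x.2 n)) *
      ivh (G.ch x.1) x.2 P.bI (lty_c hT P G x) ^ (n : ℕ) :=
    lt_cf_top (G.ch x.1) x.2 P.bI P.vI (lty_a P) (lty_b hT P) (lty_c hT P G x) j n hn1 (by
      rw [hw]
      linarith)
  rw [h2]
  refine KT.mul ?_ (KT.pow ((h1 0).inv (ivh_mul _ _ _ _)) _)
  apply G.kt
  rw [Finsupp.degree_single, hw]

theorem lty_cf_zero (hT : Hom M Cl g r w ρ TT) (P : Spl w d N) (G : GT w s) (x : lix G) (j : Fin N)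
    (n : Fin (dgb w + 1)) (hn : P.w j < ((n : ℕ) : ℝ)) : (lty hT P G x).cf j n = 0 :=
  lt_cf_zero (G.ch x.1) x.2 P.bI P.vI (lty_a P) (lty_b hT P) (lty_c hT P G x) j n hn

theorem lty_win (hT : Hom M Cl g r w ρ TT) (P : Spl w d N) (G : GT w s) (x : lix G) {c : ℝ} (hc : c ≤ 1) :
    PLe ((G.lf x.1).win c) (lw (lty hT P G x).V (qA P (mA P G.θ) s.Q 0) c) := by
  rw [qA_gt P hT.one G x.1 0]
  exact win_lw (G.ch x.1) x.2 P.bI P.vI (lty_a P) (lty_b hT P) (lty_c hT P G x) hc

theorem win_lty (hT : Hom M Cl g r w ρ TT) (P : Spl w d N) (G : GT w s) (x : lix G) (h1 : (G.lf x.1).e = 1) {c : ℝ}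
    (hc : c ≤ 1) : PLe (lw (lty hT P G x).V (qA P (mA P G.θ) s.Q 0) c) ((G.lf x.1).win c) := by
  rw [qA_gt P hT.one G x.1 0]
  exact lw_win (G.ch x.1) x.2 P.bI P.vI (lty_a P) (lty_b hT P) (lty_c hT P G x) h1 hc

/-- the curve and the cell of the height are known to the window of the line -/
theorem lty_TA (hT : Hom M Cl g r w ρ TT) (P : Spl w d N) (G : GT w s) (x : lix G) {c : ℝ} (hc : c ≤ 1) :
    PLe (rp ((lty hT P G x).xi ⊔ dg (qA P (mA P G.θ) s.Q 0) c)) (PCh.TA (G.lf x.1) (univ.erase x.2) c) := by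
  rw [qA_gt P hT.one G x.1 0]
  exact Pool.Agent.Helper71.BLD.lt_TA (G.ch x.1) x.2 P.bI P.vI (lty_a P) (lty_b hT P) (lty_c hT P G x) hc

end

end

end Pool.Agent.Helper91.EXA
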