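import Pool.Agent.Helper91.EXA.Ex
import Pool.Agent.Helper50.BLD.Gt

/-! THE FIRST CORNER, part 6: `ST_EX` from Helper 50's `ST_G`. -/

set_option autoImplicit false

namespace Pool.Agent.Helper91.EXA

open Finset Filter Topology Pool.Agent.Helper69.RK Pool.Agent.Helper31.EC Pool.Agent.Helper31.EC.Sp
open Pool.Agent.Helper31.EC.QS Pool.Agent.Helper40.EL Pool.Agent.Helper84.MT Pool.Agent.Helper36.AM
open Pool.Agent.Helper10.BLD (Spl R1 CCo)
open Pool.Agent.Helper13.AM (CD)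

noncomputable section

/-- the good types of Helper 50 -/
def ofG {S : Sp} {M g r : ℕ} {w : Fin (M + 1) → ℝ} {s : MSys S (M + 1) (lin g) (Fin r)}
    (G : Pool.Agent.Helper50.BLD.GT s w) : GT w s where
  θ := G.θ
  θ0 := G.θ0
  θw := G.θw
  E := G.E
  r1 := G.n
  Qt := G.Q
  Qt0 := G.q0
  Qtj := G.qj
  lf := G.lf
  ch := G.ch
  pos := G.pos
  dim := G.dim
  unit := G.unit
  src := fun i c h0 h1 X hp hw => G.src i c h0 h1 _ hp (hw (G.ty i))
  cov := fun i0 => by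
    rcases G.cov i0 with h | ⟨i, rfl⟩
    · exact Or.inl h
    · exact Or.inr ⟨i, G.win i⟩
  top := G.top

/-- [EX] from [G] -/
theorem st_ex_of_g (M : ℕ) (h : Pool.Agent.Helper50.BLD.ST_G M) : Pool.Agent.Helper10.BLD.ST_EX M := by
  intro Cl g r w ρ TT hT hR d N P
  have h1 : 1 < w (Fin.last M) := by
    have h2 := P.wv P.z
    rwa [P.hz] at h2
  obtain ⟨S, s, hs, ⟨G⟩⟩ := h Cl g r w ρ TT hT h1
  exact ex_of_gt hT hR hs (ofG G) P

end

end Pool.Agent.Helper91.EXA
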