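import Pool.Agent.Helper91.EXA.Asm

/-! THE FIRST CORNER, part 5: `ST_EX` from good types of one member of a homogeneous class. -/

set_option autoImplicit false

namespace Pool.Agent.Helper91.EXA

open Finset Filter Topology Pool.Agent.Helper69.RK Pool.Agent.Helper31.EC Pool.Agent.Helper31.EC.Sp
open Pool.Agent.Helper31.EC.QS Pool.Agent.Helper40.EL Pool.Agent.Helper84.MT Pool.Agent.Helper36.AM
open Pool.Agent.Helper82.TP (Lit)
open Pool.Agent.Helper5.HB (cq)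
open Pool.Agent.Helper57.TA (rcst)
open Pool.Agent.Helper13.AM (CD cQ cT cQ_mk cQ_dg cT_dg)
open Pool.Agent.Helper10.BLD (Spl qA Rv qc IsTop R1 Vw CCo Ax0 Wd Nlw)
open Pool.Agent.Helper50.BLD
open Pool.Agent.Helper91.BOX (BD exists_boxesw dgb hom_le_last)
open Pool.Agent.Helper68.VW (rp_map_PLe)

noncomputable section

variable {S : Sp} {M d N g r : ℕ} {w : Fin (M + 1) → ℝ} {ρ : ℝ} {Cl : MCl (M + 1)}
  {TT : ∀ S : Sp, MSys S (M + 1) (lin g) (Fin r) → Prop} {s : MSys S (M + 1) (lin g) (Fin r)}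

theorem qA_trn (P : Spl w d N) (A : Matrix (Fin (d + 1)) (Fin (d + 1)) ℝ) (Q : S.VV (M + 1)) {e : ℝ} (h0 : 0 < e)
    (h1 : e ≤ 1) (i : Fin (d + 1)) : qA P A (Q.chg S.tr e h0) i = cQ S.tr e h0 h1 (qA P A Q i) := by
  unfold qA
  rw [map_sum]
  apply Finset.sum_congr rfl
  intro j _
  rw [map_mul, cQ_rcst]
  rfl

theorem Rv_trn (P : Spl w d N) (Q : S.VV (M + 1)) {e : ℝ} (h0 : 0 < e) (h1 : e ≤ 1) (j : Fin N) :
    Rv P (Q.chg S.tr e h0) j = cQ S.tr e h0 h1 (Rv P Q j) := rfl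

/-- windows under the trivial restriction -/
theorem ple_true {T : Sp} {M' : ℕ} {E' : ℕ → ℕ} {Q' : T.VV M'} (l : Leaf T Q' E') {x : T.L} {c : ℝ}
    (hE : 0 < ul (T.pr fun _ _ => True)) (h : PLe (rp x) (l.win c)) :
    PLe (rp (restL (fun _ _ => True) hE x)) ((l.pull (pTr T)).win c) := by
  rw [restL_true, win_pull]
  exact rp_map_PLe _ h

/-- the top coefficients of the curves -/
theorem kt_top {r' g' : ℕ} {q : Fin (d + 1) → QS S} {R : Fin N → QS S} (T : Fin r' → LT S d N g' q R) (P : Spl w d N)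
    (kb : ℝ → ℕ → Type) (VK : ∀ s k, (S.F k).Ω → kb s k) (m : ℝ → ℕ)
    (G : ∀ s, Fin (m s) → QS S) (q0 : ℝ → Fin (d + 1) → QS S) (F : ℝ → Fin N → MvPolynomial (Fin (d + 1) ⊕ Fin N) (QS S))
    (γ : ℝ → Fin N → QS S)
    (h : ∀ i j (n : Fin (g' + 1)), P.w j = ((n : ℕ) : ℝ) → KT w s (dg ((T i).cf j n) 1)) :
    KT w s (univ.sup fun x : Fin r' × Fin N × Fin ((cdOf T kb VK m G q0 F γ).g + 1) =>
      if P.w x.2.1 = ((x.2.2 : ℕ) : ℝ) then dg ((cdOf T kb VK m G q0 F γ).cf x.1 x.2.1 x.2.2) 1 else ⊥) := by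
  apply KT.finsup
  intro x _
  by_cases hx : P.w x.2.1 = ((x.2.2 : ℕ) : ℝ)
  · rw [if_pos hx]
    exact h x.1 x.2.1 x.2.2 hx
  · rw [if_neg hx]
    exact KT.bot

/-- THE FIRST CORNER over a member with good types -/
theorem ex_of_gt (hT : Hom M Cl g r w ρ TT) (hR : ∀ S s, TT S s → R1 w s) (hs : TT S s) (G : GT w s) (P : Spl w d N) :
    ∃ (r' : ℕ) (T : Sp) (c : CD T d N r'), CCo P ρ TT r' T c ∧
      I (univ.sup fun x : Fin r' × Fin N × Fin (c.g + 1) => if P.w x.2.1 = ((x.2.2 : ℕ) : ℝ) then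
        dg (c.cf x.1 x.2.1 x.2.2) 1 else ⊥) c.O ⊥ = 0 := by
  have hz : P.w P.z = w (Fin.last M) := by
    unfold Spl.w
    rw [P.hz]
  have hz1 : 1 < P.w P.z := P.wv P.z
  have hzp : 0 < P.w P.z + 1 := by linarith
  obtain ⟨e, h0, h1, hwe⟩ : ∃ e : ℝ, 0 < e ∧ e < 1 ∧ P.w P.z * e < 1 := by
    refine ⟨(P.w P.z + 1)⁻¹, inv_pos.mpr hzp, inv_lt_one_of_one_lt₀ (by linarith), ?_⟩
    rw [← div_eq_mul_inv, div_lt_one hzp]
    linarith
  have hs' : TT _ (s.trn e h0 h1.le) := hT.trn S s hs e h0 h1.le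
  set s' := s.trn e h0 h1.le with hs'def
  set G' : GT w s' := G.trn h0 h1.le with hG'
  set A := mA P G'.θ with hAdef
  have hdet : A.det = 1 := mA_det P G'.θ hT.one G'.θ0
  have hA : IsUnit A.det := by
    rw [hdet]
    exact isUnit_one
  obtain ⟨B, hB1, hB2⟩ := exists_boxesw hT hs h0 h1 P A hA
  let ev : Fin (Fintype.card (lix G')) ≃ lix G' := (Fintype.equivFin _).symm
  let T : Fin (Fintype.card (lix G')) → LT (S.chg S.tr e h0) d N (dgb w) (qA P A s'.Q) (Rv P s'.Q) :=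
    fun i => lty hT P G' (ev i)
  let c : CD (S.chg S.tr e h0) d N (Fintype.card (lix G')) :=
    cdOf T (fun c => (B c).kb) (fun c => (B c).VK) (fun c => (B c).m) (fun c => (B c).G) (fun c => (B c).q0)
      (fun c => (B c).F) (fun c => (B c).γ)
  have hbx : c.Bx P.w P.z := hB2 _ _ T fun i t ht ht1 X hp hw =>
    PLe.trans (G'.src (ev i).1 t ht ht1 X hp hw) (lty_win hT P G' (ev i) ht1)
  have hO1 : c.O ≤ s'.Q.dg 1 := pt_le (s := s') P A le_rfl
  have hin : ∀ x : (S.chg S.tr e h0).L, KT w s' x → I x c.O ⊥ = 0 := fun x hx => by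
    apply le_antisymm _ (I_nonneg _ _ _)
    rw [← KT.indep (hR _ _ hs') hx]
    exact I_mono_right (hO1.trans le_sup_left)
  have hln : c.Ln := cdOf_ln T _ _ _ _ _ _ _ (rl_qA hT hs' P A hA)
    (hin _ (KT.finsup _ _ fun i _ => KT.vd fun j => lty_u hT P G' (ev i) j))
  have hOp : PLe (rp c.O) (pcd s'.Q) := Pool.Agent.Helper71.BLD.qA_ple P A s'.Q
  have hxi : ∀ i, c.xi i = (T i).xi := fun i => cdOf_xi T _ _ _ _ _ _ _ i
  have hnlw : Nlw c P.w P.z := by
    refine Pool.Agent.Helper71.BLD.nlw_of hz1.le s' (fun t => hbx.bdd t) (fun t ht htz => (hB1 t ht htz.le).1) hOp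
      fun i0 => ?_
    rcases G'.cov i0 with h2 | ⟨i, hi⟩
    · exact Or.inl (hOp.trans h2)
    · refine Or.inr ⟨_, _, _, G'.lf i, G'.pos i, hi, fun m => ?_⟩
      obtain ⟨i', hi'⟩ := ev.surjective ⟨i, m⟩
      refine ⟨i', fun t _ ht1 => ?_⟩
      rw [hxi]
      have key : ∀ x : lix G', ev i' = x → PLe (rp ((lty hT P G' (ev i')).xi ⊔ dg (qA P A s'.Q 0) t))
          (PCh.TA (G'.lf x.1) (univ.erase x.2) t) := by
        rintro _ rfl
        exact lty_TA hT P G' (ev i') ht1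
      exact key ⟨i, m⟩ hi'
  refine ⟨_, S.chg S.tr e h0, c, ⟨⟨P.wv, fun j => ?_, hT.rho, hT.rho1, hln, fun i j k hk => ?_, hbx, hnlw⟩, ?_⟩, ?_⟩
  · rw [hz]
    exact hom_le_last hT (P.vI j)
  · exact lty_cf_zero hT P G' (ev i) j k hk
  · refine ⟨fun _ _ => True, pos_true _, S, s, e, h0, h1.le, pTr _, fun t => (B t).kb, fun t => (B t).VK, A,
      Typ_true, hs, hwe, hA, fun i => ?_, fun j => ?_, fun t _ _ k ω ω' _ _ _ => Iff.rfl, fun t ht htz => (hB1 t ht htz).2,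
      fun hd i0 => ?_⟩
    · rw [qs_true, ← qA_trn]
      rfl
    · rw [qs_true, ← Rv_trn]
      rfl
    · rcases G'.cov i0 with h2 | ⟨i, hi⟩
      · left
        refine ple_true ((s.trn e h0 h1.le).lf i0) _ ?_
        refine (hOp.trans h2).trans ?_
        exact PLe_of_le fun k => fc_mono inf_le_left
      · right
        have he1 : (G'.lf i).e = 1 := by
          have h3 := G'.dim i
          rw [nd1_eq P, hd] at h3
          have h4 := G'.pos i
          omega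
        obtain ⟨i', hi'⟩ := ev.surjective ⟨i, ⟨0, G'.pos i⟩⟩
        refine ⟨i', fun t ht ht1 => ?_⟩
        refine ple_true ((s.trn e h0 h1.le).lf i0) _ (PLe.trans ?_ (hi t ht ht1))
        rw [hxi]
        have key : ∀ x : lix G', ev i' = x → (G'.lf x.1).e = 1 →
            PLe (rp ((lty hT P G' (ev i')).xi ⊔ dg (qA P A s'.Q 0) t)) ((G'.lf x.1).win t) := by
          rintro _ rfl hx
          have h5 : KP (lw (lty hT P G' (ev i')).V (qA P A s'.Q 0) t)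
              ((lty hT P G' (ev i')).xi ⊔ dg (qA P A s'.Q 0) t) := (lty hT P G' (ev i')).win_kp le_rfl
          exact PLe.trans h5 (win_lty hT P G' (ev i') hx ht1)
        exact key ⟨i, ⟨0, G'.pos i⟩⟩ hi' he1
  · exact hin _ (kt_top T P _ _ _ _ _ _ _ fun i j n hn => lty_cf hT P G' (ev i) j n hn)

/-- [EX] from the existence of good types -/
theorem st_ex_of (M : ℕ) (h : ∀ (Cl : MCl (M + 1)) (g r : ℕ) (w : Fin (M + 1) → ℝ) (ρ : ℝ) TT, Hom M Cl g r w ρ TT →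
    ∃ S s, TT S s ∧ Nonempty (GT (S := S) w s)) : Pool.Agent.Helper10.BLD.ST_EX M := by
  intro Cl g r w ρ TT hT hR d N P
  obtain ⟨S, s, hs, ⟨G⟩⟩ := h Cl g r w ρ TT hT
  exact ex_of_gt hT hR hs G P

end

end Pool.Agent.Helper91.EXA
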