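import Pool.Agent.Helper91.EXA.Rlb
import Pool.Agent.Helper71.BLD.Nlw

/-! THE FIRST CORNER, part 3: good types of a system of leaves (the statement of Helper 50, a structure), truncations. -/

set_option autoImplicit false

namespace Pool.Agent.Helper91.EXA

open Finset Filter Topology Pool.Agent.Helper69.RK Pool.Agent.Helper31.EC Pool.Agent.Helper31.EC.Sp
open Pool.Agent.Helper31.EC.QS Pool.Agent.Helper40.EL Pool.Agent.Helper84.MT Pool.Agent.Helper36.AM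
open Pool.Agent.Helper82.TP (Lit)
open Pool.Agent.Helper5.HB (cq)
open Pool.Agent.Helper57.TA (rcst)
open Pool.Agent.Helper13.AM (cQ cT cQ_mk cQ_dg cT_dg)
open Pool.Agent.Helper10.BLD (Spl qA Rv qc IsTop R1)
open Pool.Agent.Helper50.BLD
open Pool.Agent.Helper52.SL (nul_trn cellv_chg)

noncomputable section

/-- GOOD TYPES of a system `s`: polynomial leaves through the point in a generic height (`θ`), the velocity of the height
is a unit in every direction of the parameter; `src`: the leaves know what the point and the windows of `s` know; `cov`: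
every type of `s` knows the point or a good leaf; `top`: the top coefficients are functions of those of `s` -/
structure GT {S : Sp} {M g r : ℕ} (w : Fin (M + 1) → ℝ) (s : MSys S (M + 1) (lin g) (Fin r)) where
  θ : Fin (M + 1) → ℝ
  θ0 : θ 0 = 1
  θw : ∀ j, w j ≠ 1 → θ j = 0
  E : ℕ → ℕ
  r1 : ℕ
  Qt : Fin r1 → S.VV (M + 1)
  Qt0 : ∀ i, QS.mk (TR.cor (Qt i) 0) = ∑ j, rcst S (θ j) * QS.mk (TR.cor s.Q j)
  Qtj : ∀ i j, j ≠ 0 → QS.mk (TR.cor (Qt i) j) = QS.mk (TR.cor s.Q j)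
  lf : ∀ i, Leaf S (Qt i) E
  ch : ∀ i, PCh (lf i) w
  pos : ∀ i, 0 < (lf i).e
  dim : ∀ i, (lf i).e ≤ nd1 w
  unit : ∀ i m, IsUnit (QS.mk ((ch i).co 0 (Finsupp.single m 1)))
  src : ∀ i c, 0 ≤ c → c ≤ 1 → ∀ X : ∀ k, Setoid (S.F k).Ω, PLe (fun k => fc (X k)) (pcd s.Q) →
    (∀ i0, PLe (fun k => fc (X k)) ((s.lf i0).win c)) → PLe (fun k => fc (X k)) ((lf i).win c)
  cov : ∀ i0 : Fin r, PLe (pcd s.Q) (fun k => fc ((s.lf i0).La k)) ∨
    ∃ i, ∀ c, 0 ≤ c → c ≤ 1 → PLe ((lf i).win c) ((s.lf i0).win c)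
  top : ∀ i j (a : Fin (lf i).e →₀ ℕ), ((a.degree : ℕ) : ℝ) = w j → ∃ (n : ℕ) (f : Fin n → TR S)
    (ty : Fin n → Fin r), (∀ b, IsTop w s (ty b) (f b)) ∧ ∀ t, t ≤ 1 → dg (QS.mk ((ch i).co j a)) t ≤ (TR.vec f).dg t

/-! ### truncations -/

variable {S : Sp}

/-- literal partitions at another depth -/
theorem ple_chg {e : ℝ} (h0 : 0 < e) {A B : ∀ k, Setoid (S.F k).Ω} :
    PLe (S := S.chg S.tr e h0) (fun k => fc (A k)) (fun k => fc (B k)) ↔ PLe (fun k => fc (A k)) (fun k => fc (B k)) := by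
  have e1 : (fun k => Pool.Agent.Helper31.EC.h (fc (F := (S.chg S.tr e h0).F k) (A k)) (fc (B k))) =
      fun k => Pool.Agent.Helper31.EC.h (fc (F := S.F k) (A k)) (fc (B k)) := funext fun k => h_chg_top e h0 (A k) (B k)
  have e2 : PLe (S := S.chg S.tr e h0) (fun k => fc (A k)) (fun k => fc (B k)) ↔
      Nul (S.chg S.tr e h0) (fun k => Pool.Agent.Helper31.EC.h (fc (F := S.F k) (A k)) (fc (B k))) := by
    unfold PLe
    rw [← e1]
  rw [e2, nul_trn]
  exact Iff.rfl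

section

variable {M : ℕ} {E : ℕ → ℕ} {Q : S.VV M} {l : Leaf S Q E} {w : Fin M → ℝ}

/-- windows of the truncation -/
theorem win_trn (l : Leaf S Q E) {e : ℝ} (h0 : 0 < e) (h1 : e ≤ 1) (c : ℝ) : (l.trn e h0 h1).win c =
    fun k => fc (F := (S.chg S.tr e h0).F k) (l.La k ⊓ Setoid.ker (l.Y.cellv (e * c) k)) := by
  funext k
  have e1 : (l.Y.chg S.tr e h0).cellv c k = l.Y.cellv (e * c) k := cellv_chg l.Y e h0 c k
  exact congrArg (fun f => fc (F := (S.chg S.tr e h0).F k) (l.La k ⊓ Setoid.ker f)) e1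

theorem pcd_trn (Q : S.VV M) {e : ℝ} (h0 : 0 < e) : pcd (Q.chg S.tr e h0) =
    fun k => fc (F := (S.chg S.tr e h0).F k) (Setoid.ker (Q.cellv e k)) := by
  funext k
  have e1 : (Q.chg S.tr e h0).cellv 1 k = Q.cellv e k := (cellv_chg Q e h0 1 k).trans (by rw [mul_one])
  exact congrArg (fun f => fc (F := (S.chg S.tr e h0).F k) (Setoid.ker f)) e1

/-- the chart of the truncation -/
def pchTrn (c : PCh l w) {e : ℝ} (h0 : 0 < e) (h1 : e ≤ 1) : PCh (l.trn e h0 h1) w where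
  G := c.G
  ev := c.ev
  deg := c.deg

theorem pchTrn_co (c : PCh l w) {e : ℝ} (h0 : 0 < e) (h1 : e ≤ 1) (j : Fin M) (a : Fin l.e →₀ ℕ) :
    (pchTrn c h0 h1).co j a = cT S.tr e h0 (c.co j a) := rfl

end

section

variable {M g r : ℕ} {w : Fin (M + 1) → ℝ} {s : MSys S (M + 1) (lin g) (Fin r)}

theorem isTop_trn {i : Fin r} {f : TR S} (h : IsTop w s i f) {e : ℝ} (h0 : 0 < e) (h1 : e ≤ 1) :
    IsTop w (s.trn e h0 h1) i (cT S.tr e h0 f) := h

theorem cq_trn (Q : S.VV M) {e : ℝ} (h0 : 0 < e) (h1 : e ≤ 1) (j : Fin M) :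
    QS.mk (TR.cor (Q.chg S.tr e h0) j) = cQ S.tr e h0 h1 (QS.mk (TR.cor Q j)) := rfl

theorem cQ_rcst {e : ℝ} (h0 : 0 < e) (h1 : e ≤ 1) (a : ℝ) : cQ S.tr e h0 h1 (rcst S a) = rcst (S.chg S.tr e h0) a := rfl

theorem vec_cT {n : ℕ} (f : Fin n → TR S) {e : ℝ} (h0 : 0 < e) (t : ℝ) :
    (TR.vec fun a => cT S.tr e h0 (f a)).dg t = chgL S.tr e h0 ((TR.vec f).dg (e * t)) := by
  have h2 := (TR.vec f).chg_dg S.tr e h0 t
  exact h2

/-- good types of the truncation -/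
def GT.trn (G : GT w s) {e : ℝ} (h0 : 0 < e) (h1 : e ≤ 1) : GT w (s.trn e h0 h1) where
  θ := G.θ
  θ0 := G.θ0
  θw := G.θw
  Qt := fun i => (G.Qt i).chg S.tr e h0
  Qt0 := fun i => by
    show cQ S.tr e h0 h1 (QS.mk (TR.cor (G.Qt i) 0)) = _
    rw [G.Qt0, map_sum]
    apply Finset.sum_congr rfl
    intro j _
    rw [map_mul, cQ_rcst]
    rfl
  Qtj := fun i j hj => by
    show cQ S.tr e h0 h1 (QS.mk (TR.cor (G.Qt i) j)) = _
    rw [G.Qtj i j hj]
    rfl
  E := G.E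
  r1 := G.r1
  lf := fun i => (G.lf i).trn e h0 h1
  ch := fun i => pchTrn (G.ch i) h0 h1
  pos := G.pos
  dim := G.dim
  unit := fun i m => by
    have h2 := (G.unit i m).map (cQ S.tr e h0 h1)
    exact h2
  src := fun i c hc hc1 X hp hw => by
    have hec0 : 0 ≤ e * c := mul_nonneg h0.le hc
    have hec1 : e * c ≤ 1 := (mul_le_mul h1 hc1 hc zero_le_one).trans (one_mul 1).le
    rw [win_trn]
    refine (ple_chg h0).mpr (G.src i (e * c) hec0 hec1 X ?_ fun i0 => ?_)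
    · have h3 : PLe (S := S.chg S.tr e h0) (fun k => fc (X k)) (pcd (s.Q.chg S.tr e h0)) := hp
      rw [pcd_trn] at h3
      exact ((ple_chg h0).mp h3).trans (pcr_mono s.Q h1)
    · have h3 : PLe (S := S.chg S.tr e h0) (fun k => fc (X k)) (((s.lf i0).trn e h0 h1).win c) := hw i0
      rw [win_trn] at h3
      exact (ple_chg h0).mp h3
  cov := fun i0 => by
    rcases G.cov i0 with h2 | ⟨i, hi⟩
    · left
      show PLe (S := S.chg S.tr e h0) (pcd (s.Q.chg S.tr e h0)) (fun k => fc ((s.lf i0).La k))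
      rw [pcd_trn]
      exact (ple_chg h0).mpr ((pcr_mono s.Q h1).trans h2)
    · right
      refine ⟨i, fun c hc hc1 => ?_⟩
      have hec0 : 0 ≤ e * c := mul_nonneg h0.le hc
      have hec1 : e * c ≤ 1 := (mul_le_mul h1 hc1 hc zero_le_one).trans (one_mul 1).le
      show PLe (S := S.chg S.tr e h0) (((G.lf i).trn e h0 h1).win c) (((s.lf i0).trn e h0 h1).win c)
      rw [win_trn, win_trn]
      exact (ple_chg h0).mpr (hi (e * c) hec0 hec1)
  top := fun i j a ha => by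
    obtain ⟨n, f, ty, h2, h3⟩ := G.top i j a ha
    refine ⟨n, fun b => cT S.tr e h0 (f b), ty, fun b => isTop_trn (h2 b) h0 h1, fun t ht => ?_⟩
    rw [vec_cT]
    have h4 : QS.mk ((pchTrn (G.ch i) h0 h1).co j a) = cQ S.tr e h0 h1 (QS.mk ((G.ch i).co j a)) := rfl
    rw [h4, cQ_dg S.tr e h0 h1 _ ht]
    exact chgL_mono S.tr e h0 (h3 _ (Pool.Agent.Helper13.AM.mul_le_one_of h0 h1 ht))

/-- the top coefficients of the good leaves -/
theorem GT.kt (G : GT w s) (i : Fin G.r1) (j : Fin (M + 1)) (a : Fin (G.lf i).e →₀ ℕ) (ha : ((a.degree : ℕ) : ℝ) = w j) :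
    KT w s (dg (QS.mk ((G.ch i).co j a)) 1) := by
  obtain ⟨n, f, ty, h2, h3⟩ := G.top i j a ha
  exact ⟨n, f, ty, h2, h3 1 le_rfl⟩

end

end

end Pool.Agent.Helper91.EXA
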