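import Pool.Agent.Helper91.EXA.Top
import Pool.Agent.Helper91.BOX.Ex

/-! THE FIRST CORNER, part 2: the base point of a member of a homogeneous class is real; informations known to the top
coefficients; the axiom (R1) of corners. -/

set_option autoImplicit false

namespace Pool.Agent.Helper91.EXA

open Finset Filter Topology Pool.Agent.Helper69.RK Pool.Agent.Helper31.EC Pool.Agent.Helper31.EC.Sp
open Pool.Agent.Helper31.EC.QS Pool.Agent.Helper40.EL Pool.Agent.Helper84.MT Pool.Agent.Helper36.AM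
open Pool.Agent.Helper82.TP (Lit)
open Pool.Agent.Helper5.HB (cq)
open Pool.Agent.Helper57.TA (rcst)
open Pool.Agent.Helper13.AM (cQ cT cQ_mk)
open Pool.Agent.Helper10.BLD (Spl qA Rv qc IsTop R1)
open Pool.Agent.Helper91.BOX

noncomputable section

section

variable {S : Sp} {d N M : ℕ} {Cl : MCl (M + 1)} {g r : ℕ} {w : Fin (M + 1) → ℝ} {ρ : ℝ}
    {TT : ∀ S : Sp, MSys S (M + 1) (lin g) (Fin r) → Prop} {s : MSys S (M + 1) (lin g) (Fin r)}

/-! ### the base point is real -/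

theorem rl_base (hT : Hom M Cl g r w ρ TT) (hs : TT S s) (P : Spl w d N) :
    Rl (fun i => cq s.Q (P.bI i)) ⊥ := by
  classical
  apply Rl.of_ge
  rw [h_bot]
  have h1 := num_pt hT hs (le_refl (0 : ℝ)) zero_le_one (le_refl (1 : ℝ))
  rw [mul_zero, add_zero, mul_one] at h1
  set J : Finset (Fin (M + 1)) := univ.filter fun i => i < Fin.last M with hJ
  set B : Finset (Fin (M + 1)) := univ.image P.bI with hB
  have hBJ : B ⊆ J := by
    intro a ha
    obtain ⟨i, _, rfl⟩ := Finset.mem_image.mp ha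
    refine Finset.mem_filter.mpr ⟨Finset.mem_univ _, ?_⟩
    rw [← P.hz]
    exact P.bv i P.z
  have hJc : J.card = M := by
    have e1 : J = univ.erase (Fin.last M) := by
      ext a
      rw [Finset.mem_filter, Finset.mem_erase]
      constructor
      · rintro ⟨_, h⟩
        exact ⟨h.ne, Finset.mem_univ _⟩
      · rintro ⟨h, _⟩
        exact ⟨Finset.mem_univ _, Fin.lt_last_iff_ne_last.mpr h⟩
    rw [e1, Finset.card_erase_of_mem (Finset.mem_univ _), Finset.card_univ, Fintype.card_fin, Nat.add_sub_cancel]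
  have hBc : B.card = d + 1 := by
    rw [hB, Finset.card_image_of_injective _ P.sb.injective, Finset.card_univ, Fintype.card_fin]
  have h2 : cel2L s.Q (Fin.last M) 1 0 ≤ J.sup (fun i => dg (cq s.Q i) 1) := by
    unfold cel2L
    rw [s.Q.dg_nonpos le_rfl]
    exact _root_.sup_le _root_.bot_le (ozr_dg_eq s.Q le_rfl)
  have h3 : J.sup (fun i => dg (cq s.Q i) 1) ≤ vd (fun i => cq s.Q (P.bI i)) 1 ⊔ (J \ B).sup (fun i => dg (cq s.Q i) 1) := by
    apply Finset.sup_le
    intro a ha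
    by_cases hb : a ∈ B
    · obtain ⟨i, _, rfl⟩ := Finset.mem_image.mp hb
      exact (dg_le_vd (fun i => cq s.Q (P.bI i)) 1 i).trans le_sup_left
    · exact (Finset.le_sup (f := fun i => dg (cq s.Q i) 1) (Finset.mem_sdiff.mpr ⟨ha, hb⟩)).trans le_sup_right
  have h4 : (M : ℝ) ≤ H (vd (fun i => cq s.Q (P.bI i)) 1 ⊔ (J \ B).sup (fun i => dg (cq s.Q i) 1)) := by
    rw [← h1]
    exact H_mono (h2.trans h3)
  have h5 := h_chain (vd (fun i => cq s.Q (P.bI i)) 1) ((J \ B).sup (fun i => dg (cq s.Q i) 1)) (⊥ : S.L)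
  rw [h_bot, h_bot, sup_bot_eq] at h5
  have h6 : h ((J \ B).sup (fun i => dg (cq s.Q i) 1)) (vd (fun i => cq s.Q (P.bI i)) 1) ≤ ((J \ B).card : ℝ) := by
    refine (h_finsup_le _ _ _).trans ?_
    calc ∑ i ∈ J \ B, h (dg (cq s.Q i) 1) (vd (fun i => cq s.Q (P.bI i)) 1) ≤ ∑ _i ∈ J \ B, (1 : ℝ) :=
          Finset.sum_le_sum fun i _ => h_dg_le_one _ _
      _ = ((J \ B).card : ℝ) := by rw [Finset.sum_const, nsmul_eq_mul, mul_one]
  have h7 : ((J \ B).card : ℝ) = M - (d + 1) := by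
    rw [Finset.card_sdiff_of_subset hBJ, hJc, hBc, Nat.cast_sub]
    · push_cast
      ring
    · rw [← hJc, ← hBc]
      exact Finset.card_le_card hBJ
  rw [Fintype.card_fin]
  push_cast
  linarith

theorem qA_eq_qm (P : Spl w d N) (A : Matrix (Fin (d + 1)) (Fin (d + 1)) ℝ) :
    qA P A s.Q = qm A (fun i => cq s.Q (P.bI i)) := rfl

theorem rl_qA (hT : Hom M Cl g r w ρ TT) (hs : TT S s) (P : Spl w d N) (A : Matrix (Fin (d + 1)) (Fin (d + 1)) ℝ)
    (hA : IsUnit A.det) : Rl (qA P A s.Q) ⊥ := by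
  have hBA : A⁻¹ * A = 1 := Matrix.nonsing_inv_mul A hA
  have h1 := rl_base hT hs P
  unfold Rl at h1 ⊢
  rw [qA_eq_qm, qm_vd_eq hBA _ le_rfl]
  exact h1

/-- the point of the corner is known to the point -/
theorem pt_le (P : Spl w d N) (A : Matrix (Fin (d + 1)) (Fin (d + 1)) ℝ) {r : ℝ} (hr : r ≤ 1) :
    vd (qA P A s.Q) r ⊔ vd (Rv P s.Q) r ≤ s.Q.dg r := by
  rw [Q_dg_eq s.Q hr]
  apply _root_.sup_le
  · refine (qm_vd A (fun i => cq s.Q (P.bI i)) hr).trans ?_
    rw [vd_le]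
    exact fun i => Finset.le_sup (f := fun i => dg (cq s.Q i) r) (Finset.mem_univ (P.bI i))
  · rw [vd_le]
    exact fun j => Finset.le_sup (f := fun i => dg (cq s.Q i) r) (Finset.mem_univ (P.vI j))

theorem le_pt (P : Spl w d N) (A : Matrix (Fin (d + 1)) (Fin (d + 1)) ℝ) (hA : IsUnit A.det) {r : ℝ} (hr : r ≤ 1) :
    s.Q.dg r ≤ vd (qA P A s.Q) r ⊔ vd (Rv P s.Q) r := by
  have hBA : A⁻¹ * A = 1 := Matrix.nonsing_inv_mul A hA
  rw [Q_dg_eq s.Q hr]
  apply Finset.sup_le
  intro a _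
  rw [qA_eq_qm, qm_vd_eq hBA _ hr]
  rcases P.cov a with ⟨i, hi⟩ | ⟨j, hj⟩
  · rw [← hi]
    exact (dg_le_vd (fun i => cq s.Q (P.bI i)) r i).trans le_sup_left
  · rw [← hj]
    exact (dg_le_vd (Rv P s.Q) r j).trans le_sup_right

/-! ### informations known to the top coefficients -/

/-- `x` is known to finitely many top coefficients of the types -/
def KT (w : Fin (M + 1) → ℝ) (s : MSys S (M + 1) (lin g) (Fin r)) (x : S.L) : Prop :=
  ∃ (n : ℕ) (f : Fin n → TR S) (ty : Fin n → Fin r), (∀ a, IsTop w s (ty a) (f a)) ∧ x ≤ (TR.vec f).dg 1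

theorem KT.mono {x y : S.L} (h : KT w s y) (hxy : x ≤ y) : KT w s x := by
  obtain ⟨n, f, ty, h1, h2⟩ := h
  exact ⟨n, f, ty, h1, hxy.trans h2⟩

theorem KT.bot : KT w s (⊥ : S.L) := ⟨0, Fin.elim0, Fin.elim0, fun a => a.elim0, _root_.bot_le⟩

theorem KT.sup {x y : S.L} (hx : KT w s x) (hy : KT w s y) : KT w s (x ⊔ y) := by
  obtain ⟨n, f, ty, h1, h2⟩ := hx
  obtain ⟨n', f', ty', h1', h2'⟩ := hy
  refine ⟨n + n', Fin.append f f', Fin.append ty ty', fun a => ?_, ?_⟩
  · induction a using Fin.addCases with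
    | left i => rw [Fin.append_left, Fin.append_left]; exact h1 i
    | right i => rw [Fin.append_right, Fin.append_right]; exact h1' i
  · rw [TR.vec_dg_eq] at h2 h2' ⊢
    apply _root_.sup_le
    · refine h2.trans (Finset.sup_le fun i _ => ?_)
      have h3 := Finset.le_sup (f := fun a => TR.dg (Fin.append f f' a) 1) (Finset.mem_univ (Fin.castAdd n' i))
      beta_reduce at h3
      rwa [Fin.append_left] at h3
    · refine h2'.trans (Finset.sup_le fun i _ => ?_)
      have h3 := Finset.le_sup (f := fun a => TR.dg (Fin.append f f' a) 1) (Finset.mem_univ (Fin.natAdd n i))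
      beta_reduce at h3
      rwa [Fin.append_right] at h3

theorem KT.finsup {ι : Type*} (u : Finset ι) (f : ι → S.L) (h : ∀ i ∈ u, KT w s (f i)) : KT w s (u.sup f) := by
  classical
  induction u using Finset.induction_on with
  | empty => rw [Finset.sup_empty]; exact KT.bot
  | insert a u ha ih =>
    rw [Finset.sup_insert]
    exact (h a (Finset.mem_insert_self a u)).sup (ih fun i hi => h i (Finset.mem_insert_of_mem hi))

theorem KT.vd {ι : Type} [Fintype ι] {f : ι → QS S} {t : ℝ} (h : ∀ i, KT w s (dg (f i) t)) : KT w s (QS.vd f t) :=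
  KT.finsup _ _ fun i _ => h i

/-- the functions known to the top coefficients form a ring -/
theorem KT.mul {f g : QS S} (hf : KT w s (dg f 1)) (hg : KT w s (dg g 1)) : KT w s (dg (f * g) 1) :=
  (hf.sup hg).mono ((Kn S 1 le_rfl (dg f 1 ⊔ dg g 1)).mul_mem (mem_Kn.mpr le_sup_left) (mem_Kn.mpr le_sup_right))

theorem KT.add {f g : QS S} (hf : KT w s (dg f 1)) (hg : KT w s (dg g 1)) : KT w s (dg (f + g) 1) :=
  (hf.sup hg).mono ((Kn S 1 le_rfl (dg f 1 ⊔ dg g 1)).add_mem (mem_Kn.mpr le_sup_left) (mem_Kn.mpr le_sup_right))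

theorem KT.pow {f : QS S} (hf : KT w s (dg f 1)) (n : ℕ) : KT w s (dg (f ^ n) 1) :=
  hf.mono ((Kn S 1 le_rfl (dg f 1)).pow_mem (mem_Kn.mpr le_rfl) n)

theorem KT.inv {f g : QS S} (hf : KT w s (dg f 1)) (h : g * f = 1) : KT w s (dg g 1) :=
  hf.mono (dg_inv_le h le_rfl)

/-- (R1) in the corner -/
theorem KT.indep (h : R1 w s) {x : S.L} (hx : KT w s x) : I x (s.Q.dg 1) ⊥ = 0 := by
  obtain ⟨n, f, ty, h1, h2⟩ := hx
  apply le_antisymm _ (I_nonneg _ _ _)
  rw [← h n f ty h1]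
  exact I_mono_left (h2.trans le_sup_left)

end

end

end Pool.Agent.Helper91.EXA
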