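import Pool.Agent.Helper91.EXA.Cnv
import Pool.Agent.Helper50.BLD.Gf

/-! THE FIRST CORNER: `ST_EX` of Helper 10 is a theorem. -/

set_option autoImplicit false

namespace Pool.Agent.Helper91.EXA

theorem st_ex (M : ℕ) : Pool.Agent.Helper10.BLD.ST_EX M :=
  st_ex_of_g M (Pool.Agent.Helper50.BLD.st_G M)

end Pool.Agent.Helper91.EXA
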