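import Pool.Agent.Helper50.BLD.Lc
import Pool.Agent.Helper50.BLD.Gq
import Pool.Agent.Helper10.BLD.St

/-! THE FIRST CORNER, part 1: the data of the type of a line of a leaf (Helper 50); velocities and top coefficients of
the curve are functions of the top coefficients of the chart. -/

set_option autoImplicit false

namespace Pool.Agent.Helper91.EXA

open Finset Filter Topology Pool.Agent.Helper69.RK Pool.Agent.Helper31.EC Pool.Agent.Helper31.EC.Sp
open Pool.Agent.Helper31.EC.QS Pool.Agent.Helper40.EL Pool.Agent.Helper84.MT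
open Pool.Agent.Helper63.FRT (exps mem_exps exps_deg)
open Pool.Agent.Helper82.TP (Lit)
open Pool.Agent.Helper50.BLD
open Pool.Agent.Helper10.BLD (IsTop R1)

noncomputable section

/-! ### the top coefficient of a polynomial in a linear change of the variable -/

section

open Polynomial

theorem coeff_lin_pow {A : Type*} [CommRing A] (c g : A) (k n : ℕ) (h : k ≤ n) :
    ((C g * (X - C c)) ^ k).coeff n = if k = n then g ^ n else 0 := by
  have h1 : (C g * (X - C c)) ^ k = C (g ^ k) * (X - C c) ^ k := by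
    rw [mul_pow, ← C_pow]
  rw [h1, coeff_C_mul]
  by_cases hk : k = n
  · subst hk
    rw [if_pos rfl]
    have h2 : ((X - C c) ^ k).coeff k = 1 := by
      rcases subsingleton_or_nontrivial A with hs | hs
      · exact Subsingleton.elim _ _
      · have h3 : ((X - C c) ^ k).natDegree = k := by
          rw [Monic.natDegree_pow (monic_X_sub_C c), natDegree_X_sub_C, mul_one]
        have h4 : ((X - C c) ^ k).leadingCoeff = 1 := (monic_X_sub_C c).pow k
        unfold leadingCoeff at h4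
        rwa [h3] at h4
    rw [h2, mul_one]
  · rw [if_neg hk]
    have h2 : ((X - C c) ^ k).natDegree < n := by
      have h3 : ((X - C c) ^ k).natDegree ≤ k * 1 := natDegree_pow_le.trans
        (Nat.mul_le_mul_left _ (natDegree_X_sub_C_le c))
      omega
    rw [coeff_eq_zero_of_natDegree_lt h2, mul_zero]

theorem coeff_comp_lin {A : Type*} [CommRing A] (p : Polynomial A) (c g : A) (n : ℕ) (h : p.natDegree ≤ n) :
    (p.comp (C g * (X - C c))).coeff n = p.coeff n * g ^ n := by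
  have h1 : p.comp (C g * (X - C c)) = ∑ k ∈ range (n + 1), C (p.coeff k) * (C g * (X - C c)) ^ k := by
    unfold Polynomial.comp
    rw [eval₂_eq_sum_range' C (Nat.lt_succ_of_le h)]
  rw [h1, finsetSum_coeff]
  rw [Finset.sum_eq_single n]
  · rw [coeff_C_mul, coeff_lin_pow c g n n le_rfl, if_pos rfl]
  · intro k hk hkn
    rw [coeff_C_mul, coeff_lin_pow c g k n (Nat.lt_succ_iff.mp (Finset.mem_range.mp hk)), if_neg hkn, mul_zero]
  · intro hn
    exact absurd (Finset.mem_range.mpr (Nat.lt_succ_self n)) hn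

end

/-! ### the type of a line -/

section

variable {S : Sp} {M : ℕ} {E : ℕ → ℕ} {Q : S.VV M} {l : Leaf S Q E} {w : Fin M → ℝ} (c : PCh l w)

/-- the coefficient of top degree of a coordinate along the line is a coefficient of the chart -/
theorem pl_coeff_top (i₀ : Fin l.e) {j : Fin M} {n : ℕ} (hj : w j < n + 1) (hn : 1 ≤ n) :
    (((c.pl i₀ j).coeff n : LR (PCh.V l i₀)) : QS S) = QS.mk (c.co j (Finsupp.single i₀ n)) := by
  classical
  have key : ∀ a : Fin l.e →₀ ℕ, a ≠ Finsupp.single i₀ n → a i₀ = n → QS.mk (c.co j a) = 0 := by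
    intro a ha h1
    rw [c.co_zero, map_zero]
    have h2 : ∃ m, m ≠ i₀ ∧ a m ≠ 0 := by
      by_contra hc
      push Not at hc
      apply ha
      ext m
      by_cases hm : m = i₀
      · rw [hm, Finsupp.single_eq_same, h1]
      · rw [Finsupp.single_eq_of_ne hm, hc m hm]
    obtain ⟨m, hm, hm0⟩ := h2
    have h3 : a m + a i₀ ≤ ∑ i, a i := by
      rw [← Finset.add_sum_erase univ a (Finset.mem_univ i₀), add_comm]
      exact Nat.add_le_add_left (Finset.single_le_sum (f := fun i => a i) (fun i _ => Nat.zero_le _)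
        (Finset.mem_erase.mpr ⟨hm, Finset.mem_univ m⟩)) _
    have h4 : n + 1 ≤ ∑ i, a i := by omega
    refine hj.trans_le ?_
    exact_mod_cast h4
  unfold PCh.pl
  rw [Polynomial.finsetSum_coeff]
  rw [Finset.sum_eq_single (Finsupp.single i₀ n)]
  · rw [Polynomial.coeff_C_mul, Polynomial.coeff_X_pow, Finsupp.single_eq_same, if_pos rfl, mul_one]
    show QS.mk (c.co j (Finsupp.single i₀ n)) * ∏ m ∈ univ.erase i₀, PCh.y l m ^ (Finsupp.single i₀ n : Fin l.e →₀ ℕ) m = _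
    rw [Finset.prod_eq_one, mul_one]
    intro m hm
    rw [Finsupp.single_eq_of_ne (Finset.ne_of_mem_erase hm), pow_zero]
  · intro a _ ha
    rw [Polynomial.coeff_C_mul, Polynomial.coeff_X_pow]
    by_cases h1 : n = a i₀
    · rw [if_pos h1, mul_one]
      apply Subtype.ext
      show QS.mk (c.co j a) * _ = 0
      rw [key a ha h1.symm, zero_mul]
    · rw [if_neg h1, mul_zero]
  · intro hnot
    have h1 : ∑ i, (Finsupp.single i₀ n : Fin l.e →₀ ℕ) i = n := by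
      rw [Finset.sum_eq_single i₀]
      · rw [Finsupp.single_eq_same]
      · intro m _ hm
        rw [Finsupp.single_eq_of_ne hm]
      · intro h; exact absurd (Finset.mem_univ i₀) h
    have h7 : c.fz i₀ j (Finsupp.single i₀ n) = 0 := by
      apply Subtype.ext
      show QS.mk (c.co j (Finsupp.single i₀ n)) * _ = 0
      rw [c.co_zero' hnot, map_zero, zero_mul]
    rw [h7, map_zero, zero_mul, Polynomial.coeff_zero]

variable {d N g : ℕ} (i₀ : Fin l.e) (φ : Fin (d + 1) → Fin M) (ψ : Fin N → Fin M) (hφ : ∀ j, w (φ j) < 2)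
    (hψ : ∀ j, w (ψ j) < g + 1) (hu : IsUnit (QS.mk (c.co (φ 0) (Finsupp.single i₀ 1))))

theorem lt_V : (c.lt i₀ φ ψ hφ hψ hu).V = PCh.V l i₀ := rfl

/-- the inverse of the velocity of the height -/
def ivh : QS S := (↑(hu.unit⁻¹) : QS S)

theorem ivh_mul : ivh c i₀ φ hu * QS.mk (c.co (φ 0) (Finsupp.single i₀ 1)) = 1 := hu.val_inv_mul

theorem lt_u_eq (j : Fin (d + 1)) : (c.lt i₀ φ ψ hφ hψ hu).u j =
    QS.mk (c.co (φ j) (Finsupp.single i₀ 1)) * ivh c i₀ φ hu := by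
  have hv : IsUnit (((c.pl i₀ (φ 0)).coeff 1 : LR (PCh.V l i₀)) : QS S) := by
    rw [c.pl_coeff_one i₀ (hφ 0)]
    exact hu
  have hm : (↑(hv.unit⁻¹) : QS S) * (((c.pl i₀ (φ 0)).coeff 1 : LR (PCh.V l i₀)) : QS S) = 1 := hv.val_inv_mul
  have hd : (c.pl i₀ (φ j)).natDegree ≤ 1 := c.pl_deg i₀ (φ j) (by
    have := hφ j
    norm_num
    linarith)
  have h1 : (c.lt i₀ φ ψ hφ hψ hu).u j = cfl (c.pl i₀ (φ j)) ((c.pl i₀ (φ 0)).coeff 0)
    ⟨↑(hv.unit⁻¹), lit_inv ((c.pl i₀ (φ 0)).coeff 1).2 hm⟩ 1 := rfl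
  rw [h1]
  unfold cfl rpm
  rw [coeff_comp_lin _ _ _ _ hd, pow_one]
  show (((c.pl i₀ (φ j)).coeff 1 : LR (PCh.V l i₀)) : QS S) * (↑(hv.unit⁻¹) : QS S) = _
  rw [c.pl_coeff_one i₀ (hφ j)]
  congr 1
  have h2 : (↑(hv.unit⁻¹) : QS S) * QS.mk (c.co (φ 0) (Finsupp.single i₀ 1)) = 1 := by
    rw [← c.pl_coeff_one i₀ (hφ 0)]
    exact hm
  calc (↑(hv.unit⁻¹) : QS S) = (↑(hv.unit⁻¹) : QS S) * (ivh c i₀ φ hu * QS.mk (c.co (φ 0) (Finsupp.single i₀ 1))) := by
        rw [ivh_mul, mul_one]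
    _ = ivh c i₀ φ hu * ((↑(hv.unit⁻¹) : QS S) * QS.mk (c.co (φ 0) (Finsupp.single i₀ 1))) := by ring
    _ = ivh c i₀ φ hu := by rw [h2, mul_one]

theorem lt_cf_top (j : Fin N) (n : Fin (g + 1)) (hn : 1 ≤ (n : ℕ)) (hj : w (ψ j) < (n : ℕ) + 1) :
    (c.lt i₀ φ ψ hφ hψ hu).cf j n = QS.mk (c.co (ψ j) (Finsupp.single i₀ n)) * ivh c i₀ φ hu ^ (n : ℕ) := by
  have hv : IsUnit (((c.pl i₀ (φ 0)).coeff 1 : LR (PCh.V l i₀)) : QS S) := by
    rw [c.pl_coeff_one i₀ (hφ 0)]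
    exact hu
  have hm : (↑(hv.unit⁻¹) : QS S) * (((c.pl i₀ (φ 0)).coeff 1 : LR (PCh.V l i₀)) : QS S) = 1 := hv.val_inv_mul
  have hd : (c.pl i₀ (ψ j)).natDegree ≤ (n : ℕ) := c.pl_deg i₀ (ψ j) hj
  have h1 : (c.lt i₀ φ ψ hφ hψ hu).cf j n = cfl (c.pl i₀ (ψ j)) ((c.pl i₀ (φ 0)).coeff 0)
    ⟨↑(hv.unit⁻¹), lit_inv ((c.pl i₀ (φ 0)).coeff 1).2 hm⟩ n := rfl
  rw [h1]
  unfold cfl rpm
  rw [coeff_comp_lin _ _ _ _ hd]
  show (((c.pl i₀ (ψ j)).coeff (n : ℕ) : LR (PCh.V l i₀)) : QS S) * (↑(hv.unit⁻¹) : QS S) ^ (n : ℕ) = _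
  rw [pl_coeff_top c i₀ hj hn]
  have h2 : (↑(hv.unit⁻¹) : QS S) * QS.mk (c.co (φ 0) (Finsupp.single i₀ 1)) = 1 := by
    rw [← c.pl_coeff_one i₀ (hφ 0)]
    exact hm
  have h3 : (↑(hv.unit⁻¹) : QS S) = ivh c i₀ φ hu := by
    calc (↑(hv.unit⁻¹) : QS S) = (↑(hv.unit⁻¹) : QS S) * (ivh c i₀ φ hu * QS.mk (c.co (φ 0) (Finsupp.single i₀ 1))) := by
          rw [ivh_mul, mul_one]
      _ = ivh c i₀ φ hu * ((↑(hv.unit⁻¹) : QS S) * QS.mk (c.co (φ 0) (Finsupp.single i₀ 1))) := by ring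
      _ = ivh c i₀ φ hu := by rw [h2, mul_one]
  rw [h3]

/-- weighted degrees -/
theorem lt_cf_zero (j : Fin N) (n : Fin (g + 1)) (hj : w (ψ j) < ((n : ℕ) : ℝ)) :
    (c.lt i₀ φ ψ hφ hψ hu).cf j n = 0 := by
  have hv : IsUnit (((c.pl i₀ (φ 0)).coeff 1 : LR (PCh.V l i₀)) : QS S) := by
    rw [c.pl_coeff_one i₀ (hφ 0)]
    exact hu
  have hm : (↑(hv.unit⁻¹) : QS S) * (((c.pl i₀ (φ 0)).coeff 1 : LR (PCh.V l i₀)) : QS S) = 1 := hv.val_inv_mul
  have h1 : (c.lt i₀ φ ψ hφ hψ hu).cf j n = cfl (c.pl i₀ (ψ j)) ((c.pl i₀ (φ 0)).coeff 0)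
    ⟨↑(hv.unit⁻¹), lit_inv ((c.pl i₀ (φ 0)).coeff 1).2 hm⟩ n := rfl
  rw [h1]
  rcases Nat.eq_zero_or_pos (n : ℕ) with h0 | h0
  · have hz : c.pl i₀ (ψ j) = 0 := by
      unfold PCh.pl
      apply Finset.sum_eq_zero
      intro a _
      have h3 : c.fz i₀ (ψ j) a = 0 := by
        apply Subtype.ext
        show QS.mk (c.co (ψ j) a) * _ = 0
        rw [c.co_zero, map_zero, zero_mul]
        rw [h0, Nat.cast_zero] at hj
        exact hj.trans_le (Finset.sum_nonneg fun i _ => Nat.cast_nonneg _)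
      rw [h3, map_zero, zero_mul]
    rw [hz]
    unfold cfl rpm
    rw [Polynomial.zero_comp, Polynomial.coeff_zero]
    rfl
  · apply cfl_zero
    have h2 : (c.pl i₀ (ψ j)).natDegree ≤ (n : ℕ) - 1 := c.pl_deg i₀ (ψ j) (by
      rw [Nat.cast_sub h0, Nat.cast_one]
      linarith)
    omega

/-- the window of the leaf is coarser than the window of the line -/
theorem win_lw {s : ℝ} (hs : s ≤ 1) :
    PLe (l.win s) (lw (c.lt i₀ φ ψ hφ hψ hu).V (QS.mk (TR.cor Q (φ 0))) s) := by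
  have hv : IsUnit (((c.pl i₀ (φ 0)).coeff 1 : LR (PCh.V l i₀)) : QS S) := by
    rw [c.pl_coeff_one i₀ (hφ 0)]
    exact hu
  have hm : (↑(hv.unit⁻¹) : QS S) * (((c.pl i₀ (φ 0)).coeff 1 : LR (PCh.V l i₀)) : QS S) = 1 := hv.val_inv_mul
  have hd : (c.pl i₀ (φ 0)).natDegree ≤ 1 := c.pl_deg i₀ (φ 0) (by
    have := hφ 0
    norm_num
    linarith)
  have ht : QS.mk (TR.cor Q (φ 0)) = ((c.pl i₀ (φ 0)).coeff 0 : QS S) +
      ((c.pl i₀ (φ 0)).coeff 1 : QS S) * PCh.y l i₀ := by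
    rw [← c.pl_eval i₀ (φ 0), Polynomial.eval_eq_sum_range' (lt_of_le_of_lt
      (Polynomial.natDegree_map_le.trans hd) (by norm_num : 1 < 2)), Finset.sum_range_succ, Finset.sum_range_succ,
      Finset.sum_range_zero, zero_add, pow_zero, mul_one, pow_one, Polynomial.coeff_map, Polynomial.coeff_map]
    rfl
  have he : PCh.y l i₀ = (↑(hv.unit⁻¹) : QS S) * (QS.mk (TR.cor Q (φ 0)) - ((c.pl i₀ (φ 0)).coeff 0 : QS S)) := by
    rw [ht, add_sub_cancel_left, ← mul_assoc, hm, one_mul]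
  have h1 : PLe (l.win s) (PCh.TA l (univ.erase i₀) s) := by
    apply PLe_of_le
    intro k
    rw [← PCh.TA_empty]
    exact PCh.TA_mono l (Finset.empty_subset _) s k
  refine h1.trans ((PCh.TA_le_lw l i₀ hs).trans ?_)
  rw [lt_V]
  exact lw_chg ((c.pl i₀ (φ 0)).coeff 0).2 (lit_inv ((c.pl i₀ (φ 0)).coeff 1).2 hm) he hs

/-- on leaves of dimension one the window of the line is the window of the leaf -/
theorem lw_win (h1 : l.e = 1) {s : ℝ} (hs : s ≤ 1) :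
    PLe (lw (c.lt i₀ φ ψ hφ hψ hu).V (QS.mk (TR.cor Q (φ 0))) s) (l.win s) := by
  have hv : IsUnit (((c.pl i₀ (φ 0)).coeff 1 : LR (PCh.V l i₀)) : QS S) := by
    rw [c.pl_coeff_one i₀ (hφ 0)]
    exact hu
  have hd : (c.pl i₀ (φ 0)).natDegree ≤ 1 := c.pl_deg i₀ (φ 0) (by
    have := hφ 0
    norm_num
    linarith)
  have ht : QS.mk (TR.cor Q (φ 0)) = ((c.pl i₀ (φ 0)).coeff 0 : QS S) +
      ((c.pl i₀ (φ 0)).coeff 1 : QS S) * PCh.y l i₀ := by
    rw [← c.pl_eval i₀ (φ 0), Polynomial.eval_eq_sum_range' (lt_of_le_of_lt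
      (Polynomial.natDegree_map_le.trans hd) (by norm_num : 1 < 2)), Finset.sum_range_succ, Finset.sum_range_succ,
      Finset.sum_range_zero, zero_add, pow_zero, mul_one, pow_one, Polynomial.coeff_map, Polynomial.coeff_map]
    rfl
  have h2 : univ.erase i₀ = (∅ : Finset (Fin l.e)) := by
    have h3 := Finset.card_erase_add_one (Finset.mem_univ i₀)
    rw [Finset.card_univ, Fintype.card_fin] at h3
    exact Finset.card_eq_zero.mp (by omega)
  have h3 : PLe (lw (PCh.V l i₀) (PCh.y l i₀) s) (l.win s) := by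
    refine (PCh.lw_le_TA l i₀ hs).trans ?_
    rw [h2]
    exact PLe_of_le fun k => (PCh.TA_empty l s k).le
  refine PLe.trans ?_ h3
  rw [lt_V]
  apply lw_le (pv_lw _ _ _)
  have k1 : QS.mk (TR.cor Q (φ 0)) ∈ KB (lw (PCh.V l i₀) (PCh.y l i₀) s) s hs := by
    rw [ht]
    refine (KB _ _ _).add_mem ?_ ((KB _ _ _).mul_mem ?_ (dg_lw _ _ _))
    · exact (lit_kp ((c.pl i₀ (φ 0)).coeff 0).2 hs).trans (pv_lw _ _ _)
    · exact (lit_kp ((c.pl i₀ (φ 0)).coeff 1).2 hs).trans (pv_lw _ _ _)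
  exact k1

end

end

end Pool.Agent.Helper91.EXA
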